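import Pool.Agent.H.MP_8be301_an.CX.FinX
import Pool.Agent.H.MP_8be301_an.CX.Quo

/-!
# Crossed products of algebras with a large relative commutant: definitions  (module KT/Defs)
-/

set_option autoImplicit false

namespace Pool.Agent.H.MP_8be301_an.KT

open Pool.Agent.H.MP_8be301_an.CX Pool.Agent.H.MP_8be301_an.DP Pool.Agent.H.MP_8be301_an.RD

/-- `s` is a projection of `D` that commutes with `i B`, and for every `g` the projection `α g s` is dominated, by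
elements that commute with `i B`, by `c` translates `α (h j) s` of `s` under group elements `h j` that act
trivially on `B` -/
def Mov {Γ B D : Type*} [Group Γ] [CStarAlgebra B] [CStarAlgebra D] (β : Γ →* (B ≃⋆ₐ[ℂ] B))
    (α : Γ →* (D ≃⋆ₐ[ℂ] D)) (i : B →⋆ₐ[ℂ] D) (c : ℕ) (s : D) : Prop :=
  Pj s ∧ (∀ b, i b * s = s * i b) ∧
    ∀ g, ∃ (h : Fin c → Γ) (w : Fin c → D), (∀ j b, β (h j) b = b) ∧
      (∀ j b, i b * w j = w j * i b) ∧ (∀ j, α (h j) s * w j = w j) ∧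
      ∑ j, star (w j) * w j = α g s

/-- every nonzero projection `e` of `D` contains, up to the action of the group, arbitrarily many copies of
projections `i q * s ≠ 0`, where the projection `q` of `B` and the number `c` do not depend on the number of
copies and `s` is as in `Mov` -/
def Sml {Γ B D : Type*} [Group Γ] [CStarAlgebra B] [CStarAlgebra D] (β : Γ →* (B ≃⋆ₐ[ℂ] B))
    (α : Γ →* (D ≃⋆ₐ[ℂ] D)) (i : B →⋆ₐ[ℂ] D) : Prop :=
  ∀ (e : D) (he : Pj e), e ≠ 0 → ∃ (q : B) (c : ℕ), Pj q ∧ ∀ m : ℕ, ∃ (s : D)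
    (hs : Pj (i q * s)), Mov β α i c s ∧ i q * s ≠ 0 ∧
    LeM (rho α) (m • cW (i q * s) hs) (cW e he)

/-- invariant tracial states -/
def InvTr {Γ B : Type*} [Group Γ] [CStarAlgebra B] (β : Γ →* (B ≃⋆ₐ[ℂ] B)) (τ : B →L[ℂ] ℂ) :
    Prop :=
  τ 1 = 1 ∧ (∀ x, ∃ t : ℝ, 0 ≤ t ∧ τ (star x * x) = t) ∧ (∀ x y, τ (x * y) = τ (y * x)) ∧
    ∀ g x, τ (β g x) = τ x

theorem pj_one {B : Type*} [CStarAlgebra B] : Pj (1 : B) := ⟨one_mul 1, star_one B⟩

theorem Defs_pj {B D : Type*} [CStarAlgebra B] [CStarAlgebra D] {i : B →⋆ₐ[ℂ] D} {s : D}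
    (hs : Pj s) {q : B} (hq : Pj q) (h : i q * s = s * i q) : Pj (i q * s) := by
  refine ⟨?_, ?_⟩
  · rw [mul_assoc, ← mul_assoc s, ← h, mul_assoc (i q) s s, hs.1, ← mul_assoc, ← map_mul,
      hq.1]
  · rw [star_mul, ← map_star, hq.2, hs.2, h]

theorem Mov.pj_mul {Γ B D : Type*} [Group Γ] [CStarAlgebra B] [CStarAlgebra D]
    {β : Γ →* (B ≃⋆ₐ[ℂ] B)} {α : Γ →* (D ≃⋆ₐ[ℂ] D)} {i : B →⋆ₐ[ℂ] D} {c : ℕ} {s : D}
    (hs : Mov β α i c s) {q : B} (hq : Pj q) : Pj (i q * s) :=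
  Defs_pj hs.1 hq (hs.2.1 q)

end Pool.Agent.H.MP_8be301_an.KT
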