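import Pool.Agent.H.MP_8be301_an.KT.Defs

/-!
# Algebras without invariant ideals  (module KT/Gs)

`GSimp β`: the closed two-sided ideals of `B` which are invariant under the group are `⊥` and `⊤`. `Gs_unit`: then the class of the unit is below
a multiple of the class of every nonzero projection for the preorder of the type monoid. As `full` of RD/Full, with the elements dominated by finite
sums of conjugates of the translates of `star c * c`.
-/

set_option autoImplicit false
set_option linter.unusedSectionVars false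

namespace Pool.Agent.H.MP_8be301_an.KT

open Pool.Agent.H.MP_8be301_an.CX Pool.Agent.H.MP_8be301_an.DP Pool.Agent.H.MP_8be301_an.RD

/-- the closed two-sided invariant ideals are `⊥` and `⊤` -/
def GSimp {Γ B : Type*} [Group Γ] [CStarAlgebra B] (β : Γ →* (B ≃⋆ₐ[ℂ] B)) : Prop :=
  ∀ I : TwoSidedIdeal B, IsClosed (I : Set B) → (∀ g, ∀ x ∈ I, β g x ∈ I) → I = ⊥ ∨ I = ⊤

section

variable {Γ A : Type*} [Group Γ] [CStarAlgebra A] [PartialOrder A] [StarOrderedRing A]
  {β : Γ →* (A ≃⋆ₐ[ℂ] A)}

/-- the elements dominated by finite sums of conjugates of translates of `star c * c` -/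
private def Gs_J (β : Γ →* (A ≃⋆ₐ[ℂ] A)) (c : A) : Set A :=
  {z | ∃ (ι : Type) (_ : Fintype ι) (g : ι → Γ) (y : ι → A),
    star z * z ≤ ∑ s, star (y s) * β (g s) (star c * c) * y s}

private theorem Gs_mem (c : A) : c ∈ Gs_J β c := by
  refine ⟨Unit, inferInstance, fun _ => 1, fun _ => 1, ?_⟩
  have e : ∀ x : A, β 1 x = x := fun x => by
    rw [map_one]
    rfl
  simp [e]

private theorem Gs_zero (c : A) : (0 : A) ∈ Gs_J β c := by
  refine ⟨Empty, inferInstance, fun _ => 1, fun _ => 0, ?_⟩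
  simp

private theorem Gs_neg {c x : A} (h : x ∈ Gs_J β c) : -x ∈ Gs_J β c := by
  obtain ⟨ι, i1, g, y, hy⟩ := h
  refine ⟨ι, i1, g, y, ?_⟩
  rwa [star_neg, neg_mul_neg]

private theorem Gs_right {c x b : A} (h : x ∈ Gs_J β c) : x * b ∈ Gs_J β c := by
  obtain ⟨ι, i1, g, y, hy⟩ := h
  refine ⟨ι, i1, g, fun s => y s * b, ?_⟩
  have h1 := star_left_conjugate_le_conjugate hy b
  have e1 : star (x * b) * (x * b) = star b * (star x * x) * b := by
    rw [star_mul]
    simp only [mul_assoc]
  have e2 : ∑ s, star (y s * b) * β (g s) (star c * c) * (y s * b) =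
      star b * (∑ s, star (y s) * β (g s) (star c * c) * y s) * b := by
    rw [Finset.mul_sum, Finset.sum_mul]
    refine Finset.sum_congr rfl fun s _ => ?_
    rw [star_mul]
    simp only [mul_assoc]
  rw [e1, e2]
  exact h1

private theorem Gs_left {c x a : A} (h : x ∈ Gs_J β c) : a * x ∈ Gs_J β c := by
  have h0 : x * algebraMap ℝ A ‖a‖ ∈ Gs_J β c := Gs_right h
  obtain ⟨ι, i1, g, y, hy⟩ := h0
  refine ⟨ι, i1, g, y, le_trans ?_ hy⟩
  have h1 := star_left_conjugate_le_conjugate
    (CStarAlgebra.star_mul_le_algebraMap_norm_sq (a := a)) x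
  have e1 : star (a * x) * (a * x) = star x * (star a * a) * x := by
    rw [star_mul]
    simp only [mul_assoc]
  have e3 : star (algebraMap ℝ A ‖a‖) = algebraMap ℝ A ‖a‖ := by
    rw [← algebraMap_star_comm]
    simp
  have e2 : star (x * algebraMap ℝ A ‖a‖) * (x * algebraMap ℝ A ‖a‖) =
      star x * algebraMap ℝ A (‖a‖ ^ 2) * x := by
    rw [star_mul, e3, map_pow, pow_two, ← Algebra.commutes ‖a‖ x]
    have h2 : algebraMap ℝ A ‖a‖ * star x = star x * algebraMap ℝ A ‖a‖ :=
      Algebra.commutes ‖a‖ (star x)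
    rw [h2]
    simp only [mul_assoc]
  rw [e1, e2]
  exact h1

private theorem Gs_add {c x x' : A} (h : x ∈ Gs_J β c) (h' : x' ∈ Gs_J β c) :
    x + x' ∈ Gs_J β c := by
  obtain ⟨ι, i1, g, y, hy⟩ := h
  obtain ⟨κ, i2, g', y', hy'⟩ := h'
  refine ⟨(ι ⊕ κ) ⊕ (ι ⊕ κ), inferInstance,
    Sum.elim (Sum.elim g g') (Sum.elim g g'), Sum.elim (Sum.elim y y') (Sum.elim y y'), ?_⟩
  have h1 : star (x + x') * (x + x') ≤
      (star x * x + star x' * x') + (star x * x + star x' * x') := by
    refine le_of_sq (z := x - x') ?_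
    simp only [star_add, star_sub, add_mul, mul_add, sub_mul, mul_sub]
    abel
  refine h1.trans ?_
  simp only [Fintype.sum_sum_type, Sum.elim_inl, Sum.elim_inr]
  exact add_le_add (add_le_add hy hy') (add_le_add hy hy')

private theorem Gs_mul (h g : Γ) (x : A) : β h (β g x) = β (h * g) x := by
  rw [map_mul]
  rfl

private theorem Gs_act {c x : A} (hx : x ∈ Gs_J β c) (h : Γ) : β h x ∈ Gs_J β c := by
  obtain ⟨ι, i1, g, y, hy⟩ := hx
  refine ⟨ι, i1, fun s => h * g s, fun s => β h (y s), ?_⟩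
  have h1 := OrderHomClass.mono (β h) hy
  have e1 : β h (star x * x) = star (β h x) * β h x := by
    rw [map_mul, map_star]
  have e2 : β h (∑ s, star (y s) * β (g s) (star c * c) * y s) =
      ∑ s, star (β h (y s)) * β (h * g s) (star c * c) * β h (y s) := by
    rw [map_sum]
    refine Finset.sum_congr rfl fun s _ => ?_
    rw [map_mul, map_mul, map_star, Gs_mul]
  rwa [e1, e2] at h1

private theorem Gs_one (hs : GSimp β) {c : A} (hc : c ≠ 0) : (1 : A) ∈ closure (Gs_J β c) := by
  have hc1 : c ∈ closure (Gs_J β c) := subset_closure (Gs_mem c)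
  rcases hs (TwoSidedIdeal.mk' (closure (Gs_J β c)) (subset_closure (Gs_zero c))
    (fun {x y} hx hy => map_mem_closure₂ continuous_add hx hy fun a ha b hb => Gs_add ha hb)
    (fun {x} hx => map_mem_closure continuous_neg hx fun a ha => Gs_neg ha)
    (fun {x y} hy => map_mem_closure (f := fun z => x * z) (continuous_const.mul continuous_id) hy
      fun a ha => Gs_left ha)
    (fun {x y} hx => map_mem_closure (f := fun z => z * y) (continuous_id.mul continuous_const) hx
      fun a ha => Gs_right ha)) (by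
    rw [TwoSidedIdeal.coe_mk']
    exact isClosed_closure) (by
    intro g x hx
    rw [TwoSidedIdeal.mem_mk'] at hx ⊢
    exact map_mem_closure (f := fun z => β g z) (StarAlgEquiv.isometry (β g)).continuous hx
      fun a ha => Gs_act ha g) with h | h
  · exfalso
    apply hc
    have h1 : c ∈ (⊥ : TwoSidedIdeal A) := by
      rw [← h, TwoSidedIdeal.mem_mk']
      exact hc1
    exact (TwoSidedIdeal.mem_bot A).1 h1
  · have h1 : (1 : A) ∈ (⊤ : TwoSidedIdeal A) := trivial
    rw [← h, TwoSidedIdeal.mem_mk'] at h1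
    exact h1

private theorem Gs_full (hs : GSimp β) {c : A} (hc : c ≠ 0) :
    ∃ (K : ℕ) (g : Fin K → Γ) (y : Fin K → A),
      ∑ s, star (y s) * β (g s) (star c * c) * y s = 1 := by
  obtain ⟨Z, ⟨ι, i1, g, y, hy⟩, hZ⟩ :=
    Metric.mem_closure_iff.1 (Gs_one hs hc) (1 / 4) (by norm_num)
  have hZ' : ‖Z - 1‖ ≤ 1 / 4 := by
    rw [dist_comm, dist_eq_norm] at hZ
    exact hZ.le
  have hn1 : ‖(1 : A)‖ ≤ 1 := by
    rcases subsingleton_or_nontrivial A with hA | hA
    · rw [Subsingleton.elim (1 : A) 0, norm_zero]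
      exact zero_le_one
    · exact CStarRing.norm_one.le
  have hZn : ‖Z‖ ≤ 5 / 4 := by
    have h1 : Z = (Z - 1) + 1 := by abel
    rw [h1]
    exact (norm_add_le _ _).trans (by linarith)
  have hd : ‖star Z * Z - 1‖ ≤ 3 / 4 := by
    have e1 : star Z * Z - 1 = star Z * (Z - 1) + star (Z - 1) := by
      rw [star_sub, star_one, mul_sub, mul_one]
      abel
    rw [e1]
    refine (norm_add_le _ _).trans ?_
    have h1 : ‖star Z * (Z - 1)‖ ≤ 5 / 4 * (1 / 4) := by
      refine (norm_mul_le _ _).trans ?_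
      rw [norm_star]
      exact mul_le_mul hZn hZ' (norm_nonneg _) (by norm_num)
    rw [norm_star]
    linarith
  have h2 : algebraMap ℝ A (1 - 3 / 4) ≤ star Z * Z :=
    lb_close (c := 1) (by rw [map_one]) (IsSelfAdjoint.star_mul_self Z) hd
  have h3 := h2.trans hy
  obtain ⟨t, ht, ht1, -⟩ := invSqrt (by norm_num : (0 : ℝ) < 1 - 3 / 4) h3
  refine ⟨Fintype.card ι, fun s => g ((Fintype.equivFin ι).symm s),
    fun s => y ((Fintype.equivFin ι).symm s) * t, ?_⟩
  have e2 : ∑ s : Fin (Fintype.card ι), star (y ((Fintype.equivFin ι).symm s) * t) *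
      β (g ((Fintype.equivFin ι).symm s)) (star c * c) * (y ((Fintype.equivFin ι).symm s) * t) =
      ∑ i, star (y i * t) * β (g i) (star c * c) * (y i * t) :=
    Equiv.sum_comp (Fintype.equivFin ι).symm fun i =>
      star (y i * t) * β (g i) (star c * c) * (y i * t)
  rw [e2, ← ht1, Finset.mul_sum, Finset.sum_mul]
  refine Finset.sum_congr rfl fun s _ => ?_
  rw [star_mul, ht.star_eq]
  simp only [mul_assoc]

end

/-- the unit is below a multiple of every nonzero projection for the preorder of the type monoid -/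
theorem Gs_unit {Γ B : Type*} [Group Γ] [CStarAlgebra B] (h0 : RR0 B) (β : Γ →* (B ≃⋆ₐ[ℂ] B))
    (hs : GSimp β) (q : B) (hq : Pj q) (hq0 : q ≠ 0) :
    ∃ k : ℕ, LeM (rho β) (cW (1 : B) pj_one) (k • cW q hq) := by
  let _ := CStarAlgebra.spectralOrder B
  have := CStarAlgebra.spectralOrderedRing B
  obtain ⟨K, g, y, hy⟩ := Gs_full hs hq0
  have hqq : star q * q = q := by rw [hq.2, hq.1]
  rw [hqq] at hy
  have hP : ∀ s, Pj (β (g s) q) := fun s => pj_aut _ hq
  obtain ⟨Y, hY⟩ := le_of_col (p := (1 : B)) pj_one hP (z := fun s => β (g s) q * y s)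
    (fun s => by rw [← mul_assoc, (hP s).1]) (by
      rw [← hy]
      refine Finset.sum_congr rfl fun s _ => ?_
      rw [star_mul, (hP s).2]
      calc star (y s) * β (g s) q * (β (g s) q * y s) =
            star (y s) * (β (g s) q * β (g s) q) * y s := by simp only [mul_assoc]
        _ = _ := by rw [(hP s).1])
  have hsum : ∑ s, c1 (β (g s) q) ∈ W B := sum_mem fun s _ => c1_mem (hP s)
  have hYW : Y ∈ W B := W_sub h0 (c1_mem pj_one) (by rw [hY]; exact hsum)
  refine ⟨K, ?_⟩
  have hle : Le (cW (1 : B) pj_one) (∑ s, cW (β (g s) q) (hP s)) := by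
    refine ⟨⟨Y, hYW⟩, Subtype.ext ?_⟩
    rw [AddSubmonoid.coe_add, AddSubmonoid.coe_finset_sum]
    exact hY
  have hM : LeM (rho β) (∑ s, cW (β (g s) q) (hP s)) (∑ _s : Fin K, cW q hq) := by
    refine LeM.sum _ fun s _ => ?_
    rw [← rho_c]
    exact LeM.act _ _
  rw [Finset.sum_const, Finset.card_univ, Fintype.card_fin] at hM
  exact LeM.trans (refi_W h0) (LeM.of_le hle) hM

end Pool.Agent.H.MP_8be301_an.KT
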