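import Pool.Agent.H.MP_8be301_an.KT.Hg

/-!
# Invariant tracial states  (module KT/HgC)

PROOF: `hg`, and if there is `f`: as in `trC` of CX/TrC, `g x = f (ℜ x) + I f (ℑ x)`, divided by `f 1`; it is continuous (`LinearMap.mkContinuous`, or
`‖ℜ x‖ ≤ ‖x‖`, `‖ℑ x‖ ≤ ‖x‖`). Invariance: both sides are linear and continuous in `x`, every element is a linear combination of four elements
`star y * y` (positive elements; `CStarAlgebra.span_nonneg` or the decomposition of self-adjoint elements), and there it is the last property of `f`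
(`f` of a positive element is `g` of it).
-/

set_option autoImplicit false

namespace Pool.Agent.H.MP_8be301_an.KT

open Pool.Agent.H.MP_8be301_an.CX Pool.Agent.H.MP_8be301_an.DP Pool.Agent.H.MP_8be301_an.RD

open Complex ComplexStarModule in
private theorem HgC_zero {A : Type*} [CStarAlgebra A] (L : A →ₗ[ℂ] ℂ)
    (h : ∀ x, L (star x * x) = 0) (x : A) : L x = 0 := by
  have hx := h x
  have hone : L 1 = 0 := by
    have h1 := h 1
    rwa [star_one, one_mul] at h1
  have h1 := h (x + 1)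
  have h2 := h (x + I • (1 : A))
  rw [star_add, star_one, add_mul, mul_add, mul_add, one_mul, mul_one, mul_one, map_add, map_add,
    map_add, hx, hone] at h1
  rw [star_add, star_smul, add_mul, mul_add, mul_add] at h2
  simp only [map_add, smul_mul_assoc, mul_smul_comm, map_smul, smul_eq_mul, Complex.star_def,
    Complex.conj_I, star_one, one_mul, mul_one, hx, hone, mul_zero, add_zero, zero_add] at h2
  have h3 : I * (L (star x) - L x) = 0 := by
    linear_combination h2
  have h4 : L (star x) - L x = 0 := (mul_eq_zero.1 h3).resolve_left I_ne_zero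
  linear_combination (1 / 2 : ℂ) * h1 - (1 / 2 : ℂ) * h4

open Complex ComplexStarModule in
/-- the complex functional of a real one -/
private theorem HgC_ext {A : Type*} [CStarAlgebra A] (f : A →L[ℝ] ℝ) :
    ∃ g : A →L[ℂ] ℂ, ∀ x : A, IsSelfAdjoint x → g x = (f x : ℂ) := by
  obtain ⟨g, hg⟩ : ∃ g : A →ₗ[ℂ] ℂ, ∀ x : A, g x = (f (ℜ x : A) : ℂ) + I * (f (ℑ x : A) : ℂ) := by
    refine ⟨IsLinearMap.mk' (fun x => (f (ℜ x : A) : ℂ) + I * (f (ℑ x : A) : ℂ)) ⟨?_, ?_⟩,
      fun x => rfl⟩
    · intro x y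
      simp only [map_add, AddSubgroup.coe_add, ofReal_add]
      ring
    · intro z x
      have e1 : f ((ℜ (z • x) : selfAdjoint A) : A) = z.re * f (ℜ x : A) - z.im * f (ℑ x : A) := by
        rw [realPart_smul]
        simp
      have e2 : f ((ℑ (z • x) : selfAdjoint A) : A) = z.re * f (ℑ x : A) + z.im * f (ℜ x : A) := by
        rw [imaginaryPart_smul]
        simp
      simp only [e1, e2, smul_eq_mul]
      conv_rhs => rw [← Complex.re_add_im z]
      push_cast
      linear_combination (-(z.im : ℂ) * (f (ℑ x : A) : ℂ)) * I_mul_I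
  have hb : ∀ x, ‖g x‖ ≤ 2 * ‖f‖ * ‖x‖ := by
    intro x
    rw [hg]
    have e1 : ‖(f (ℜ x : A) : ℂ)‖ ≤ ‖f‖ * ‖x‖ := by
      rw [Complex.norm_real]
      exact (f.le_opNorm _).trans (mul_le_mul_of_nonneg_left (realPart.norm_le x) (norm_nonneg _))
    have e2 : ‖I * (f (ℑ x : A) : ℂ)‖ ≤ ‖f‖ * ‖x‖ := by
      rw [norm_mul, Complex.norm_I, one_mul, Complex.norm_real]
      exact (f.le_opNorm _).trans
        (mul_le_mul_of_nonneg_left (imaginaryPart.norm_le x) (norm_nonneg _))
    exact (norm_add_le _ _).trans (by linarith)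
  refine ⟨g.mkContinuous (2 * ‖f‖) hb, ?_⟩
  intro x hx
  rw [LinearMap.mkContinuous_apply, hg, hx.coe_realPart, hx.imaginaryPart]
  simp

theorem hgC (B : Type*) [CStarAlgebra B] [PartialOrder B] [StarOrderedRing B] {Γ : Type*} [Group Γ]
    (β : Γ →* (B ≃⋆ₐ[ℂ] B)) :
    (∃ τ : B →L[ℂ] ℂ, InvTr β τ) ∨
    ∃ (m : ℕ) (g : Fin m → Γ) (y : Fin m → B),
      (1 / 2 : ℝ) • (1 : B) ≤ ∑ i, (β (g i)⁻¹ (star (y i) * y i) - y i * star (y i)) := by
  rcases hg B β with ⟨f, h1, h2, h3, h4⟩ | ⟨m, g, y, h⟩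
  · left
    obtain ⟨g, hsa⟩ := HgC_ext f
    have hf : (f 1 : ℂ) ≠ 0 := Complex.ofReal_ne_zero.2 h1.ne'
    refine ⟨(f 1 : ℂ)⁻¹ • g, ?_, fun x => ⟨(f 1)⁻¹ * f (star x * x), ?_, ?_⟩, ?_, ?_⟩
    · rw [smul_apply, hsa 1 (IsSelfAdjoint.one B), smul_eq_mul,
        inv_mul_cancel₀ hf]
    · exact mul_nonneg (inv_nonneg.2 h1.le) (h2 x)
    · rw [smul_apply, hsa _ (IsSelfAdjoint.star_mul_self x), smul_eq_mul]
      push_cast
      rfl
    · intro x y
      rw [smul_apply, smul_apply]
      congr 1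
      refine TrC_pol (g : B →ₗ[ℂ] ℂ) (fun x => ?_) x y
      rw [ContinuousLinearMap.coe_coe, hsa _ (IsSelfAdjoint.star_mul_self x),
        hsa _ (IsSelfAdjoint.mul_star_self x), h3]
    · intro γ x
      rw [smul_apply, smul_apply]
      congr 1
      obtain ⟨L, hL⟩ : ∃ L : B →ₗ[ℂ] ℂ, ∀ x, L x = g (β γ x) - g x := by
        refine ⟨IsLinearMap.mk' (fun x => g (β γ x) - g x) ⟨?_, ?_⟩, fun x => rfl⟩
        · intro x y
          simp only [map_add]
          ring
        · intro z x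
          simp only [map_smul, smul_eq_mul]
          ring
      have h5 := HgC_zero L (fun x => by
        rw [hL, map_mul, map_star, hsa _ (IsSelfAdjoint.star_mul_self _),
          hsa _ (IsSelfAdjoint.star_mul_self _), h4, sub_self]) x
      rw [hL] at h5
      exact sub_eq_zero.1 h5
  · right
    refine ⟨m, g, y, le_trans ?_ h⟩
    calc (1 / 2 : ℝ) • (1 : B) ≤ (1 : ℝ) • (1 : B) :=
          smul_le_smul_of_nonneg_right (by norm_num) zero_le_one
      _ = 1 := one_smul _ _

end Pool.Agent.H.MP_8be301_an.KT
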