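import Pool.Agent.H.MP_8be301_an.KT.Defs

/-!
# Pure infiniteness from the projections of the diagonal  (module KT/Pi)

PROOF: copy the second part of the proof of `dichM` in CX/FinX, from `rintro a ha ⟨c, hc⟩` on, with `p = 1` and `C.j` the identity: `her X h0 pj_one hα ha` gives
`r`, `t`, `hI` gives `w` for `r`, `b = a * t`; the projection is `b * star b = a * (t * star t) * a` and the partial isometry `b * w * star b`.
-/

set_option autoImplicit false

namespace Pool.Agent.H.MP_8be301_an.KT

open Pool.Agent.H.MP_8be301_an.CX Pool.Agent.H.MP_8be301_an.DP Pool.Agent.H.MP_8be301_an.RD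

theorem piE {Γ D A : Type*} [Group Γ] [CStarAlgebra D] [CStarAlgebra A] (X : Cp Γ D A)
    (h0 : RR0 D) (hα : Outer X.α 1)
    (hI : ∀ r : D, Pj r → r ≠ 0 → ∃ w : A, star w * w = X.ι r ∧ X.ι r * w = w ∧
      w * star w ≠ X.ι r) :
    ∀ a : A, a ≠ 0 → (∃ y : A, a = star y * y) →
      ∃ p ∈ closure {x : A | ∃ z : A, x = a * z * a},
        p * p = p ∧ star p = p ∧
        ∃ v : A, star v * v = p ∧ v * star v * p = v * star v ∧ v * star v ≠ p := by
  rintro a ha ⟨c, hc⟩
  have hsa : star a = a := by
    rw [hc, star_mul, star_star]
  have hap : a * X.ι (1 : D) = a := by rw [map_one, mul_one]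
  obtain ⟨r, t, hr, hr0, -, ht1, -, ht3⟩ := her X h0 pj_one hα ha hap
  obtain ⟨w, hw1, hw2, hw3⟩ := hI r hr hr0
  have hιr : X.ι r * X.ι r = X.ι r := by rw [← map_mul, hr.1]
  have hιs : star (X.ι r) = X.ι r := by rw [← map_star, hr.2]
  have hw4 : w * X.ι r = w := by
    have e : star (w - w * X.ι r) * (w - w * X.ι r) = 0 := by
      rw [star_sub, star_mul, hιs]
      have e1 : (star w - X.ι r * star w) * (w - w * X.ι r) =
          star w * w - (star w * w) * X.ι r - (X.ι r * (star w * w) -
            X.ι r * (star w * w) * X.ι r) := by noncomm_ring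
      rw [e1, hw1, hιr, hιr]
      abel
    exact (sub_eq_zero.1 ((CStarRing.star_mul_self_eq_zero_iff _).1 e)).symm
  obtain ⟨b, hb⟩ : ∃ b, b = a * t := ⟨_, rfl⟩
  rw [← hb] at ht1
  have hb1 : b * X.ι r = b := by rw [hb, mul_assoc, ht3]
  have hP : a * (t * star t) * a = b * star b := by
    rw [hb, star_mul, hsa]
    noncomm_ring
  have hPP : b * star b * (b * star b) = b * star b := by
    calc b * star b * (b * star b) = b * (star b * b) * star b := by noncomm_ring
      _ = b * star b := by rw [ht1, hb1]
  refine ⟨a * (t * star t) * a, subset_closure ⟨t * star t, rfl⟩, ?_, ?_, b * w * star b, ?_, ?_, ?_⟩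
  · rw [hP, hPP]
  · rw [hP, star_mul, star_star]
  · rw [hP]
    calc star (b * w * star b) * (b * w * star b)
        = b * star w * (star b * b) * w * star b := by
          simp only [star_mul, star_star, mul_assoc]
      _ = b * (star w * (X.ι r * w)) * star b := by
          rw [ht1]
          simp only [mul_assoc]
      _ = b * star b := by rw [hw2, hw1, hb1]
  · rw [hP]
    calc b * w * star b * star (b * w * star b) * (b * star b)
        = b * w * star b * b * star w * (star b * b) * star b := by
          simp only [star_mul, star_star, mul_assoc]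
      _ = b * w * (star b * b) * (star w * X.ι r) * star b := by
          rw [ht1]
          simp only [mul_assoc]
          rw [← mul_assoc (star b) b, ht1]
      _ = b * w * star b * star (b * w * star b) := by
          have e : star w * X.ι r = star w := by
            have := congrArg star hw2
            rwa [star_mul, hιs] at this
          rw [e]
          simp only [star_mul, star_star, mul_assoc]
  · intro h4
    rw [hP] at h4
    have h5 : star b * (b * w * star b * star (b * w * star b)) * b = star b * (b * star b) * b := by
      rw [h4]
    have h6 : star b * (b * w * star b * star (b * w * star b)) * b =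
        (star b * b) * w * (star b * b) * star w * (star b * b) := by
      simp only [star_mul, star_star, mul_assoc]
    have h7 : star b * (b * star b) * b = (star b * b) * (star b * b) := by
      noncomm_ring
    rw [h6, h7, ht1, hιr, hw2, hw4, mul_assoc] at h5
    have e : star w * X.ι r = star w := by
      have := congrArg star hw2
      rwa [star_mul, hιs] at this
    rw [e] at h5
    exact hw3 h5

end Pool.Agent.H.MP_8be301_an.KT
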