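import Pool.Agent.H.MP_8be301_an.KT.Defs

/-!
# The trace of the crossed product  (module KT/TrX)

PROOF: `F x = re (τ (X.E x))`, continuous as `‖X.E x‖ ≤ ‖x‖` (`LinearMap.mkContinuous` over `ℝ`, or restrict scalars). `X.E (star x * x) = star y * y` by `E_pos`.
For `x = ∑ g ∈ S, ι (d g) * u g`: `E (x * star x) = ∑ d g * star (d g)` and `E (star x * x) = ∑ α g⁻¹ (star (d g) * d g)` (`E_mul_star`, `E_star_mul`), so
`τ` agrees by invariance and the trace property. For general `x` approximate by `X.dense` (both sides are continuous in `x`; a closed-set argument, or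
`‖(star x * x) - (star w * w)‖ ≤ δ (2 ‖x‖ + δ)` as in `Hd_sq` of CX/Hd).
-/

set_option autoImplicit false

namespace Pool.Agent.H.MP_8be301_an.KT

open Pool.Agent.H.MP_8be301_an.CX Pool.Agent.H.MP_8be301_an.DP Pool.Agent.H.MP_8be301_an.RD

theorem trX {Γ D A : Type*} [Group Γ] [CStarAlgebra D] [CStarAlgebra A] (X : Cp Γ D A)
    {τ : D →L[ℂ] ℂ} (h : InvTr X.α τ) :
    ∃ F : A →L[ℝ] ℝ, 0 < F 1 ∧ (∀ x, 0 ≤ F (star x * x)) ∧
      ∀ x, F (star x * x) = F (x * star x) := by
  obtain ⟨h1, hpos, htr, hinv⟩ := h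
  obtain ⟨F, hF⟩ : ∃ F : A →L[ℝ] ℝ, ∀ x, F x = (τ (X.E x)).re := by
    refine ⟨Complex.reCLM.comp ((τ.comp (LinearMap.mkContinuous X.E 1
      (fun x => by rw [one_mul]; exact X.E_norm x))).restrictScalars ℝ), fun x => rfl⟩
  have hE1 : X.E 1 = 1 := by
    have h2 := X.E_one 1
    rwa [map_one] at h2
  refine ⟨F, ?_, ?_, ?_⟩
  · rw [hF, hE1, h1, Complex.one_re]
    exact one_pos
  · intro x
    obtain ⟨y, hy⟩ := X.E_pos x
    obtain ⟨t, ht, ht'⟩ := hpos y
    rw [hF, hy, ht', Complex.ofReal_re]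
    exact ht
  · have key : ∀ (S : Finset Γ) (d : Γ → D),
        F (star (∑ g ∈ S, X.ι (d g) * X.u g) * (∑ g ∈ S, X.ι (d g) * X.u g)) =
          F ((∑ g ∈ S, X.ι (d g) * X.u g) * star (∑ g ∈ S, X.ι (d g) * X.u g)) := by
      intro S d
      rw [hF, hF, X.E_star_mul, X.E_mul_star, map_sum, map_sum]
      congr 1
      refine Finset.sum_congr rfl fun g _ => ?_
      rw [hinv, htr]
    have hcl : IsClosed {x : A | F (star x * x) = F (x * star x)} :=
      isClosed_eq (F.continuous.comp (continuous_star.mul continuous_id))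
        (F.continuous.comp (continuous_id.mul continuous_star))
    intro x
    have hx : x ∈ closure {x : A | F (star x * x) = F (x * star x)} := by
      rw [Metric.mem_closure_iff]
      intro ε hε
      obtain ⟨S, d, hS⟩ := X.dense x ε hε
      exact ⟨_, key S d, by rw [dist_eq_norm]; exact hS⟩
    rw [hcl.closure_eq] at hx
    exact hx

end Pool.Agent.H.MP_8be301_an.KT
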