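import Pool.Agent.H.MP_8be301_an.KT.Defs
import Pool.Agent.H.MP_8be301_an.CX.Ifg

/-!
# An infinite class without comparison of the classes  (module KT/WInf)

PROOF: this is `infClassG` of CX/Ifg for `p = 1`, without the hypothesis that the classes are almost unperforated. Copy the proof of `lemRg`
(CX/Reg) with `OCw.fin` instead of `OC.fin`: for every `N` there is `L > 0` with `L • (∑ ⌊N t'⌋ • c1 (q' k) + ⌊N δ / 2⌋ • c1 p) ≤ L • ∑ ⌈N t⌉ • c1 (q i)`.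
Then the proof of `infClassG` goes through with everything multiplied by `L`: `h10` becomes `Le (L • (z + (M + 1) • P)) (L • zq)`, `h11` is
multiplied by `L` (`LeM.nsmul`), `h15`: `LeM (L • (z + M • P) + L • P) (L • (z + M • P))`, `Ifg_abs` with `L • P` gives
`LeM (L • (z + M • P) + K • L • P) (L • (z + M • P))` and `K • P ≤ K • L • P` as `L ≥ 1`; the final bound is `L * (∑ + M)`.
-/

set_option autoImplicit false

namespace Pool.Agent.H.MP_8be301_an.KT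

open Pool.Agent.H.MP_8be301_an.CX Pool.Agent.H.MP_8be301_an.DP Pool.Agent.H.MP_8be301_an.RD

section

variable {D : Type*} [CStarAlgebra D]

theorem WInf_lemRg [PartialOrder D] [StarOrderedRing D] (hD : OCw D) {ι κ : Type*} [Fintype ι]
    [Fintype κ] {p : D} (hp : Pj p) {q : ι → D} {q' : κ → D} (hq : ∀ i, Pj (q i))
    (hq' : ∀ i, Pj (q' i)) (hpq : ∀ i, p * q i = q i) (hpq' : ∀ i, p * q' i = q' i)
    {t : ι → ℝ} {t' : κ → ℝ} (_ht : ∀ i, 0 ≤ t i) (ht' : ∀ i, 0 ≤ t' i) {δ : ℝ} (hδ : 0 < δ)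
    (h : ∑ k, t' k • q' k + δ • p ≤ ∑ i, t i • q i) (N : ℕ) :
    ∃ L : ℕ, 0 < L ∧ Le (L • (∑ k, ⌊(N : ℝ) * t' k⌋₊ • c1 (q' k) +
      ⌊(N : ℝ) * (δ / 2)⌋₊ • c1 p)) (L • ∑ i, ⌈(N : ℝ) * t i⌉₊ • c1 (q i)) := by
  rcases Nat.eq_zero_or_pos N with rfl | hN
  · refine ⟨1, one_pos, ?_⟩
    simp only [Nat.cast_zero, zero_mul, Nat.floor_zero, zero_smul, Finset.sum_const_zero,
      Nat.ceil_zero, add_zero]
    exact Le.refl _
  have hN' : (0 : ℝ) < N := by exact_mod_cast hN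
  obtain ⟨L, hL, key⟩ := hD.fin (ι := Σ i, Fin ⌈(N : ℝ) * t i⌉₊)
    (κ := (Σ k, Fin ⌊(N : ℝ) * t' k⌋₊) ⊕ Fin ⌊(N : ℝ) * (δ / 2)⌋₊) hp
    (q := fun i => q i.1) (q' := Sum.elim (fun k => q' k.1) fun _ => p)
    (fun i => ⟨hq _, hpq _⟩) (by
      rintro (k | k)
      · exact ⟨hq' _, hpq' _⟩
      · exact ⟨hp, hp.1⟩) (δ := N * (δ / 2)) (by positivity) (by
      have hs1 : ∑ i : Σ i, Fin ⌈(N : ℝ) * t i⌉₊, q i.1 = ∑ i, (⌈(N : ℝ) * t i⌉₊ : ℝ) • q i := by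
        rw [Fintype.sum_sigma]
        refine Finset.sum_congr rfl fun i _ => ?_
        simp only [Finset.sum_const, Finset.card_univ, Fintype.card_fin]
        rw [Nat.cast_smul_eq_nsmul]
      have hs2 : ∑ k : Σ k, Fin ⌊(N : ℝ) * t' k⌋₊, q' k.1 =
          ∑ k, (⌊(N : ℝ) * t' k⌋₊ : ℝ) • q' k := by
        rw [Fintype.sum_sigma]
        refine Finset.sum_congr rfl fun i _ => ?_
        simp only [Finset.sum_const, Finset.card_univ, Fintype.card_fin]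
        rw [Nat.cast_smul_eq_nsmul]
      rw [Fintype.sum_sum_type]
      simp only [Sum.elim_inl, Sum.elim_inr, Finset.sum_const, Finset.card_univ,
        Fintype.card_fin]
      rw [hs1, hs2, ← Nat.cast_smul_eq_nsmul ℝ]
      have e : ∑ i, (⌈(N : ℝ) * t i⌉₊ : ℝ) • q i - (∑ k, (⌊(N : ℝ) * t' k⌋₊ : ℝ) • q' k +
          (⌊(N : ℝ) * (δ / 2)⌋₊ : ℝ) • p + ((N : ℝ) * (δ / 2)) • p) =
          (N : ℝ) • (∑ i, t i • q i - (∑ k, t' k • q' k + δ • p)) +
          ∑ i, ((⌈(N : ℝ) * t i⌉₊ : ℝ) - N * t i) • q i +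
          ∑ k, ((N : ℝ) * t' k - ⌊(N : ℝ) * t' k⌋₊) • q' k +
          ((N : ℝ) * (δ / 2) - ⌊(N : ℝ) * (δ / 2)⌋₊) • p := by
        simp only [sub_smul, Finset.sum_sub_distrib, smul_sub, smul_add, Finset.smul_sum,
          smul_smul]
        have e2 : ((N : ℝ) * δ) • p = ((N : ℝ) * (δ / 2)) • p + ((N : ℝ) * (δ / 2)) • p := by
          rw [← add_smul]
          congr 1
          ring
        rw [e2]
        abel
      rw [e]
      have h0 : 0 ≤ (N : ℝ) • (∑ i, t i • q i - (∑ k, t' k • q' k + δ • p)) +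
          ∑ i, ((⌈(N : ℝ) * t i⌉₊ : ℝ) - N * t i) • q i +
          ∑ k, ((N : ℝ) * t' k - ⌊(N : ℝ) * t' k⌋₊) • q' k +
          ((N : ℝ) * (δ / 2) - ⌊(N : ℝ) * (δ / 2)⌋₊) • p := by
        refine add_nonneg (add_nonneg (add_nonneg ?_ ?_) ?_) ?_
        · obtain ⟨z, hz⟩ := (CStarAlgebra.nonneg_iff_eq_star_mul_self).1 (sub_nonneg.2 h)
          rw [hz]
          have h3 : (N : ℝ) • (star z * z) = star (Real.sqrt N • z) * (Real.sqrt N • z) := by
            rw [star_smul, star_trivial (Real.sqrt (N : ℝ)), smul_mul_smul_comm,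
              Real.mul_self_sqrt hN'.le]
          rw [h3]
          exact star_mul_self_nonneg _
        · refine Finset.sum_nonneg fun i _ => Reg_pos (hq i) ?_
          exact sub_nonneg.2 (Nat.le_ceil _)
        · refine Finset.sum_nonneg fun i _ => Reg_pos (hq' i) ?_
          exact sub_nonneg.2 (Nat.floor_le (mul_nonneg hN'.le (ht' i)))
        · exact Reg_pos hp (sub_nonneg.2 (Nat.floor_le (by positivity)))
      obtain ⟨z, hz⟩ := (CStarAlgebra.nonneg_iff_eq_star_mul_self).1 h0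
      exact ⟨z, hz⟩)
  refine ⟨L, hL, ?_⟩
  rw [Fintype.sum_sum_type, Fintype.sum_sigma, Fintype.sum_sigma] at key
  simpa only [Sum.elim_inl, Sum.elim_inr, Finset.sum_const, Finset.card_univ,
    Fintype.card_fin] using key

end

theorem WInf_gen {D : Type*} [CStarAlgebra D] [PartialOrder D] [StarOrderedRing D]
    (hrr : RR0 D) (hO : OCw D) {Γ : Type*} [Group Γ] (α : Γ →* (D ≃⋆ₐ[ℂ] D)) {p : D} (hp : Pj p) {m : ℕ}
    {g : Fin m → Γ} {y : Fin m → D} (h1 : ∀ i, p * y i = y i ∧ y i * α (g i) p = y i)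
    (h2 : (1 / 2 : ℝ) • p ≤ ∑ i, (α (g i)⁻¹ (star (y i) * y i) - y i * star (y i))) :
    ∃ n : ℕ, ∀ K : ℕ, LeM (rho α) (K • cW p hp) (n • cW p hp) := by
  have hR : Refi (W D) := refi_W hrr
  have hinv : ∀ (g : Γ) (x : D), α g⁻¹ (α g x) = x := fun g x => by
    have : (α g⁻¹ * α g) x = x := by
      rw [← map_mul, inv_mul_cancel, map_one]
      rfl
    exact this
  obtain ⟨ε, hε⟩ : ∃ ε : ℝ, ε = 1 / (8 * ((m : ℝ) + 1)) := ⟨_, rfl⟩
  have hε0 : 0 < ε := by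
    rw [hε]
    positivity
  have hex := fun i => Ifg_app hrr hp (pj_aut (α (g i)) hp) (h1 i).1 (h1 i).2 hε0
  choose w hw1 hw2 hw3 hw4 hw5 using hex
  have hsv := fun i => svd hp (pj_aut (α (g i)) hp) (hw1 i) (hw2 i) (hw3 i)
  choose s e e' he hsum hsum' using hsv
  -- the operator inequality
  have hwp : ∀ i, p * α (g i)⁻¹ (star (w i) * w i) = α (g i)⁻¹ (star (w i) * w i) := fun i => by
    have h3 := congrArg star (hw2 i)
    rw [star_mul, (pj_aut (α (g i)) hp).2] at h3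
    calc p * α (g i)⁻¹ (star (w i) * w i) =
          α (g i)⁻¹ (α (g i) p) * α (g i)⁻¹ (star (w i) * w i) := by rw [hinv]
      _ = α (g i)⁻¹ (α (g i) p * star (w i) * w i) := by
          rw [← map_mul, mul_assoc]
      _ = _ := by rw [h3]
  have hyp : ∀ i, p * α (g i)⁻¹ (star (y i) * y i) = α (g i)⁻¹ (star (y i) * y i) := fun i => by
    have h3 := congrArg star (h1 i).2
    rw [star_mul, (pj_aut (α (g i)) hp).2] at h3
    calc p * α (g i)⁻¹ (star (y i) * y i) =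
          α (g i)⁻¹ (α (g i) p) * α (g i)⁻¹ (star (y i) * y i) := by rw [hinv]
      _ = α (g i)⁻¹ (α (g i) p * star (y i) * y i) := by
          rw [← map_mul, mul_assoc]
      _ = _ := by rw [h3]
  have h3 : (1 / 4 : ℝ) • p ≤ ∑ i, (α (g i)⁻¹ (star (w i) * w i) - w i * star (w i)) := by
    obtain ⟨z, hz⟩ : ∃ z, z = ∑ i, (α (g i)⁻¹ (star (w i) * w i) - w i * star (w i)) -
      ∑ i, (α (g i)⁻¹ (star (y i) * y i) - y i * star (y i)) := ⟨_, rfl⟩
    have hz1 : IsSelfAdjoint z := by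
      rw [hz, ← Finset.sum_sub_distrib]
      have : ∀ i, IsSelfAdjoint (α (g i)⁻¹ (star (w i) * w i) - w i * star (w i) -
          (α (g i)⁻¹ (star (y i) * y i) - y i * star (y i))) := fun i => by
        refine IsSelfAdjoint.sub (IsSelfAdjoint.sub ?_ ?_) (IsSelfAdjoint.sub ?_ ?_)
        · exact (IsSelfAdjoint.star_mul_self (w i)).map (α (g i)⁻¹)
        · exact IsSelfAdjoint.mul_star_self (w i)
        · exact (IsSelfAdjoint.star_mul_self (y i)).map (α (g i)⁻¹)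
        · exact IsSelfAdjoint.mul_star_self (y i)
      show star _ = _
      rw [star_sum]
      exact Finset.sum_congr rfl fun i _ => this i
    have hz2 : p * z = z := by
      rw [hz, mul_sub, Finset.mul_sum, Finset.mul_sum]
      congr 1
      · refine Finset.sum_congr rfl fun i _ => ?_
        rw [mul_sub, hwp, ← mul_assoc, hw1]
      · refine Finset.sum_congr rfl fun i _ => ?_
        rw [mul_sub, hyp, ← mul_assoc, (h1 i).1]
    have hz3 : ‖z‖ ≤ 1 / 4 := by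
      rw [hz, ← Finset.sum_sub_distrib]
      refine (norm_sum_le _ _).trans ?_
      have h4 : ∀ i ∈ (Finset.univ : Finset (Fin m)),
          ‖α (g i)⁻¹ (star (w i) * w i) - w i * star (w i) -
          (α (g i)⁻¹ (star (y i) * y i) - y i * star (y i))‖ ≤ 2 * ε := fun i _ => by
        have e1 : α (g i)⁻¹ (star (w i) * w i) - w i * star (w i) -
            (α (g i)⁻¹ (star (y i) * y i) - y i * star (y i)) =
            α (g i)⁻¹ (star (w i) * w i - star (y i) * y i) -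
              (w i * star (w i) - y i * star (y i)) := by
          rw [map_sub]
          abel
        rw [e1]
        refine (norm_sub_le _ _).trans ?_
        have e2 : ‖α (g i)⁻¹ (star (w i) * w i - star (y i) * y i)‖ =
            ‖star (w i) * w i - star (y i) * y i‖ := StarAlgEquiv.norm_map _ _
        rw [e2]
        linarith [hw4 i, hw5 i]
      refine (Finset.sum_le_sum h4).trans ?_
      rw [Finset.sum_const, Finset.card_univ, Fintype.card_fin, nsmul_eq_mul, hε]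
      have hm : (0 : ℝ) < (m : ℝ) + 1 := by positivity
      rw [show (m : ℝ) * (2 * (1 / (8 * ((m : ℝ) + 1)))) = m / (4 * ((m : ℝ) + 1)) by
        field_simp
        ring]
      rw [div_le_div_iff₀ (by positivity) (by norm_num)]
      linarith
    have h5 := Ifg_small hp hz1 hz2 hz3
    have h6 := add_le_add h2 h5
    rw [hz] at h6
    have e1 : (1 / 2 : ℝ) • p + -((1 / 4 : ℝ) • p) = (1 / 4 : ℝ) • p := by
      rw [← sub_eq_add_neg, ← sub_smul]
      norm_num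
    rwa [e1, add_sub_cancel] at h6
  -- the projections
  have hpe : ∀ i, ∀ t ∈ s i, p * α (g i)⁻¹ (e i t) = α (g i)⁻¹ (e i t) := fun i t ht => by
    calc p * α (g i)⁻¹ (e i t) = α (g i)⁻¹ (α (g i) p) * α (g i)⁻¹ (e i t) := by rw [hinv]
      _ = α (g i)⁻¹ (α (g i) p * e i t) := by rw [← map_mul]
      _ = _ := by rw [(he i t ht).2.2.2.1]
  let ι := Σ i : Fin m, s i
  have h7 : ∑ k : ι, ((k.2 : ℝ)) • e' k.1 k.2 + (1 / 4 : ℝ) • p ≤
      ∑ k : ι, ((k.2 : ℝ)) • α (g k.1)⁻¹ (e k.1 k.2) := by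
    have e1 : ∑ k : ι, ((k.2 : ℝ)) • e' k.1 k.2 = ∑ i, w i * star (w i) := by
      rw [Fintype.sum_sigma]
      refine Finset.sum_congr rfl fun i _ => ?_
      rw [hsum' i]
      exact Finset.sum_coe_sort (s i) (fun t => t • e' i t)
    have e2 : ∑ k : ι, ((k.2 : ℝ)) • α (g k.1)⁻¹ (e k.1 k.2) =
        ∑ i, α (g i)⁻¹ (star (w i) * w i) := by
      rw [Fintype.sum_sigma]
      refine Finset.sum_congr rfl fun i _ => ?_
      rw [hsum i, map_sum]
      rw [Finset.sum_coe_sort (s i) (fun t => t • α (g i)⁻¹ (e i t))]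
      refine Finset.sum_congr rfl fun t _ => ?_
      exact (Spec_real (α (g i)⁻¹) t (e i t)).symm
    rw [e1, e2]
    rw [Finset.sum_sub_distrib] at h3
    have h8 := add_le_add (le_refl (∑ i, w i * star (w i))) h3
    have e3 : ∑ i, w i * star (w i) + (∑ i, α (g i)⁻¹ (star (w i) * w i) -
      ∑ i, w i * star (w i)) = ∑ i, α (g i)⁻¹ (star (w i) * w i) := by abel
    rwa [e3] at h8
  obtain ⟨M, hM⟩ : ∃ M, M = Fintype.card ι := ⟨_, rfl⟩
  have hPe : ∀ k : ι, Pj (α (g k.1)⁻¹ (e k.1 k.2)) := fun k =>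
    pj_aut _ (he k.1 k.2 k.2.2).2.1
  have hPe' : ∀ k : ι, Pj (e' k.1 k.2) := fun k => (he k.1 k.2 k.2.2).2.2.1
  have hpe' : ∀ k : ι, p * e' k.1 k.2 = e' k.1 k.2 := fun k => (he k.1 k.2 k.2.2).2.2.2.2.1
  obtain ⟨L, hL, h9⟩ := WInf_lemRg hO hp hPe hPe' (fun k => hpe k.1 k.2 k.2.2) hpe'
    (t := fun k : ι => (k.2 : ℝ)) (t' := fun k : ι => (k.2 : ℝ))
    (fun k => (he k.1 k.2 k.2.2).1.le) (fun k => (he k.1 k.2 k.2.2).1.le)
    (show (0 : ℝ) < 1 / 4 by norm_num) h7 (8 * (M + 1))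
  have hfl : ⌊((8 * (M + 1) : ℕ) : ℝ) * (1 / 4 / 2)⌋₊ = M + 1 := by
    have : ((8 * (M + 1) : ℕ) : ℝ) * (1 / 4 / 2) = ((M + 1 : ℕ) : ℝ) := by
      push_cast
      ring
    rw [this, Nat.floor_natCast]
  rw [hfl] at h9
  obtain ⟨N, hN⟩ : ∃ N, N = 8 * (M + 1) := ⟨_, rfl⟩
  rw [← hN] at h9
  obtain ⟨P, hP⟩ : ∃ P, P = cW p hp := ⟨_, rfl⟩
  obtain ⟨z, hz⟩ : ∃ z : W D, z = ∑ k : ι, ⌊(N : ℝ) * (k.2 : ℝ)⌋₊ • cW (e' k.1 k.2) (hPe' k) :=
    ⟨_, rfl⟩
  obtain ⟨zq, hzq⟩ : ∃ zq : W D, zq = ∑ k : ι, ⌈(N : ℝ) * (k.2 : ℝ)⌉₊ •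
      cW (α (g k.1)⁻¹ (e k.1 k.2)) (hPe k) := ⟨_, rfl⟩
  have h10 : Le (L • (z + (M + 1) • P)) (L • zq) := by
    apply Reg_W hrr
    rw [AddSubmonoidClass.coe_nsmul, AddSubmonoidClass.coe_nsmul]
    have e1 : ((z + (M + 1) • P : W D) : VA D) =
        ∑ k : ι, ⌊(N : ℝ) * (k.2 : ℝ)⌋₊ • c1 (e' k.1 k.2) + (M + 1) • c1 p := by
      rw [hz, hP, AddSubmonoid.coe_add, AddSubmonoid.coe_finsetSum]
      rfl
    have e2 : (zq : VA D) = ∑ k : ι, ⌈(N : ℝ) * (k.2 : ℝ)⌉₊ •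
        c1 (α (g k.1)⁻¹ (e k.1 k.2)) := by
      rw [hzq, AddSubmonoid.coe_finsetSum]
      rfl
    rw [e1, e2]
    exact h9
  have h11 : LeM (rho α) zq (z + M • P) := by
    have h12 : LeM (rho α) zq (∑ k : ι, ⌈(N : ℝ) * (k.2 : ℝ)⌉₊ • cW (e' k.1 k.2) (hPe' k)) := by
      rw [hzq]
      refine LeM.sum _ fun k _ => LeM.nsmul _ ?_
      have e1 : cW (e' k.1 k.2) (hPe' k) = cW (e k.1 k.2) (he k.1 k.2 k.2.2).2.1 :=
        Subtype.ext (c1_mvn (hPe' k) (he k.1 k.2 k.2.2).2.1 (he k.1 k.2 k.2.2).2.2.2.2.2.symm)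
      rw [e1, ← rho_c α (g k.1)⁻¹ (e k.1 k.2) (he k.1 k.2 k.2.2).2.1]
      exact LeM.act _ _
    refine LeM.trans hR h12 (LeM.of_le ?_)
    have h13 : Le (∑ k : ι, ⌈(N : ℝ) * (k.2 : ℝ)⌉₊ • cW (e' k.1 k.2) (hPe' k))
        (∑ k : ι, (⌊(N : ℝ) * (k.2 : ℝ)⌋₊ • cW (e' k.1 k.2) (hPe' k) + P)) := by
      refine Gr_sum _ fun k _ => ?_
      have h14 := Gr_smul (Nat.ceil_le_floor_add_one ((N : ℝ) * (k.2 : ℝ)))
        (cW (e' k.1 k.2) (hPe' k))
      rw [add_smul, one_smul] at h14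
      refine Le.trans h14 (Le.add (Le.refl _) ?_)
      rw [hP]
      exact Reg_sub hp (hPe' k) (hpe' k)
    rw [Finset.sum_add_distrib, ← hz, Finset.sum_const, Finset.card_univ, ← hM] at h13
    exact h13
  have h15 : LeM (rho α) (L • (z + M • P) + L • P) (L • (z + M • P)) := by
    have e1 : L • (z + M • P) + L • P = L • (z + (M + 1) • P) := by
      rw [succ_nsmul, ← add_assoc, ← smul_add]
    rw [e1]
    exact LeM.trans hR (LeM.of_le h10) (LeM.nsmul _ h11)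
  refine ⟨L * ((∑ k : ι, ⌊(N : ℝ) * (k.2 : ℝ)⌋₊) + M), fun K => ?_⟩
  have h16 := Ifg_abs hR h15 K
  have h17 : Le (L • (z + M • P)) ((L * ((∑ k : ι, ⌊(N : ℝ) * (k.2 : ℝ)⌋₊) + M)) • P) := by
    rw [mul_smul]
    refine Gr_nsmul _ ?_
    rw [add_smul, Finset.sum_smul, hz]
    refine Le.add (Gr_sum _ fun k _ => Gr_nsmul _ ?_) (Le.refl _)
    rw [hP]
    exact Reg_sub hp (hPe' k) (hpe' k)
  have h18 : Le (K • P) (L • (z + M • P) + K • L • P) := by
    refine Le.trans (Gr_nsmul K (?_ : Le P (L • P))) ⟨L • (z + M • P), add_comm _ _⟩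
    have h19 := Gr_smul (show 1 ≤ L from hL) P
    rwa [one_smul] at h19
  rw [← hP]
  exact LeM.trans hR (LeM.trans hR (LeM.of_le h18) h16) (LeM.of_le h17)

theorem infClassW {B : Type*} [CStarAlgebra B] [PartialOrder B] [StarOrderedRing B]
    (h0 : RR0 B) (hO : OCw B) {Γ : Type*} [Group Γ] (β : Γ →* (B ≃⋆ₐ[ℂ] B)) {m : ℕ}
    {g : Fin m → Γ} {y : Fin m → B}
    (h2 : (1 / 2 : ℝ) • (1 : B) ≤ ∑ i, (β (g i)⁻¹ (star (y i) * y i) - y i * star (y i))) :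
    ∃ n : ℕ, ∀ K : ℕ, LeM (rho β) (K • cW (1 : B) pj_one) (n • cW (1 : B) pj_one) :=
  WInf_gen h0 hO β pj_one (fun i => ⟨one_mul _, by rw [map_one, mul_one]⟩) h2

end Pool.Agent.H.MP_8be301_an.KT
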