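import Pool.Agent.H.MP_8be301_an.KT.Inf
import Pool.Agent.H.MP_8be301_an.KT.Pi
import Pool.Agent.H.MP_8be301_an.KT.TrX
import Pool.Agent.H.MP_8be301_an.KT.HgC
import Pool.Agent.H.MP_8be301_an.KT.WInf
import Pool.Agent.H.MP_8be301_an.KT.Gs

/-!
# The dichotomy for crossed products of algebras with a large relative commutant  (module KT/Fin)
-/

set_option autoImplicit false

namespace Pool.Agent.H.MP_8be301_an.KT

open Pool.Agent.H.MP_8be301_an.CX Pool.Agent.H.MP_8be301_an.DP Pool.Agent.H.MP_8be301_an.RD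

theorem dichK {Γ B D A : Type*} [Group Γ] [CStarAlgebra B] [CStarAlgebra D] [CStarAlgebra A]
    (X : Cp Γ D A) (h0 : RR0 D) (h0B : RR0 B) (hO : OCw B)
    (β : Γ →* (B ≃⋆ₐ[ℂ] B)) (hsB : GSimp β) (i : B →⋆ₐ[ℂ] D)
    (hi : ∀ g b, i (β g b) = X.α g (i b)) (hS : Sml β X.α i)
    (hT : (∃ τ : B →L[ℂ] ℂ, InvTr β τ) → ∃ τ : D →L[ℂ] ℂ, InvTr X.α τ)
    (hα : Outer X.α 1) (hs : Simp A) :
    ((∃ τ : A →ₗ[ℂ] ℂ, τ 1 = 1 ∧ (∀ x, ∃ t : ℝ, 0 ≤ t ∧ τ (star x * x) = t) ∧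
        ∀ x y, τ (x * y) = τ (y * x)) ∧
      ∀ (n : ℕ) (v : Matrix (Fin n) (Fin n) (Unitization ℂ A)),
        star v * v = 1 → v * star v = 1) ∨
      (∀ a : A, a ≠ 0 → (∃ y : A, a = star y * y) →
        ∃ p ∈ closure {x : A | ∃ z : A, x = a * z * a},
          p * p = p ∧ star p = p ∧
          ∃ v : A, star v * v = p ∧ v * star v * p = v * star v ∧ v * star v ≠ p) := by
  let _ := CStarAlgebra.spectralOrder A
  have := CStarAlgebra.spectralOrderedRing A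
  let _ := CStarAlgebra.spectralOrder B
  have := CStarAlgebra.spectralOrderedRing B
  rcases hgC B β with hτ | ⟨m, g, y, hy⟩
  · left
    obtain ⟨τ, hτ⟩ := hT hτ
    obtain ⟨F, h1, h2, h3⟩ := trX X hτ
    refine ⟨trC F h1 h2 h3, ?_⟩
    intro n v h
    by_contra h'
    exact not_inf_of_trace hs F h1 h2 h3 (inf_of_unitization h h')
  · right
    obtain ⟨n, hn⟩ := infClassW h0B hO β hy
    exact piE X h0 hα fun r hr hr0 => infE X h0 β (Gs_unit h0B β hsB) i hi hS hn hr hr0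

end Pool.Agent.H.MP_8be301_an.KT
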