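import Pool.Agent.H.MP_8be301_an.KT.Defs

/-!
# Invariant traces or sums of generalised commutators  (module Hg)

`c (g, y) = beta g⁻¹ (star y * y) - y * star y`. The real span of these elements consists of finite sums of such elements: scaling by
`c ≥ 0` is absorbed in `y`, the negative of `c (g, y)` is `c (g⁻¹, beta g⁻¹ (star y))`. `K` = skew-adjoint elements. If the span meets the
open unit ball about `1` modulo `K`, a finite sum is at least `1`. Otherwise Hahn-Banach gives a functional that vanishes on the span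
and is positive at `1` and nonnegative on the positive elements.
-/

set_option autoImplicit false

namespace Pool.Agent.H.MP_8be301_an.KT

section

variable {A : Type*} [CStarAlgebra A] {G : Type*} [Group G]

/-- the generalised commutator -/
private def Hg_c (β : G →* (A ≃⋆ₐ[ℂ] A)) (p : G × A) : A :=
  β p.1⁻¹ (star p.2 * p.2) - p.2 * star p.2

private theorem Hg_real (β : G →* (A ≃⋆ₐ[ℂ] A)) (g : G) (c : ℝ) (a : A) :
    β g (c • a) = c • β g a := by
  have h1 : c • a = (c : ℂ) • a := (Complex.coe_smul c a).symm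
  have h2 : c • β g a = (c : ℂ) • β g a := (Complex.coe_smul c (β g a)).symm
  rw [h1, h2, map_smul]

private theorem Hg_inv (β : G →* (A ≃⋆ₐ[ℂ] A)) (g : G) (a : A) : β g (β g⁻¹ a) = a := by
  rw [← StarAlgEquiv.mul_apply, ← map_mul, mul_inv_cancel, map_one, StarAlgEquiv.one_apply]

private theorem Hg_sa (β : G →* (A ≃⋆ₐ[ℂ] A)) (p : G × A) : IsSelfAdjoint (Hg_c β p) := by
  unfold Hg_c
  exact ((IsSelfAdjoint.star_mul_self p.2).map (β p.1⁻¹)).sub (IsSelfAdjoint.mul_star_self p.2)

private theorem Hg_list_sa (β : G →* (A ≃⋆ₐ[ℂ] A)) (l : List (G × A)) :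
    IsSelfAdjoint (l.map (Hg_c β)).sum := by
  induction l with
  | nil => simp
  | cons x l ih =>
    rw [List.map_cons, List.sum_cons]
    exact (Hg_sa β x).add ih

private theorem Hg_smul (β : G →* (A ≃⋆ₐ[ℂ] A)) (c : ℝ) (hc : 0 ≤ c) (l : List (G × A)) :
    c • (l.map (Hg_c β)).sum =
      ((l.map fun p => (p.1, (Real.sqrt c) • p.2)).map (Hg_c β)).sum := by
  induction l with
  | nil => simp
  | cons x l ih =>
    rw [List.map_cons, List.sum_cons, smul_add, ih, List.map_cons, List.map_cons, List.sum_cons]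
    congr 1
    unfold Hg_c
    simp only
    rw [star_smul, star_trivial (Real.sqrt c), smul_mul_smul_comm, smul_mul_smul_comm,
      Real.mul_self_sqrt hc, smul_sub, Hg_real]

private theorem Hg_neg (β : G →* (A ≃⋆ₐ[ℂ] A)) (l : List (G × A)) :
    -(l.map (Hg_c β)).sum =
      ((l.map fun p => (p.1⁻¹, β p.1⁻¹ (star p.2))).map (Hg_c β)).sum := by
  induction l with
  | nil => simp
  | cons x l ih =>
    rw [List.map_cons, List.sum_cons, neg_add, ih, List.map_cons, List.map_cons, List.sum_cons]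
    congr 1
    unfold Hg_c
    simp only
    rw [← map_star, star_star, ← map_mul, ← map_mul, inv_inv, Hg_inv, neg_sub]

/-- the span of the generalised commutators and the skew-adjoint elements -/
private noncomputable def Hg_S (β : G →* (A ≃⋆ₐ[ℂ] A)) : Submodule ℝ A :=
  Submodule.span ℝ {a | (∃ p, a = Hg_c β p) ∨ star a = -a}

private theorem Hg_form (β : G →* (A ≃⋆ₐ[ℂ] A)) {a : A} (ha : a ∈ Hg_S β) :
    ∃ (l : List (G × A)) (k : A), star k = -k ∧ a = (l.map (Hg_c β)).sum + k := by
  unfold Hg_S at ha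
  induction ha using Submodule.span_induction with
  | mem a h =>
    rcases h with ⟨x, rfl⟩ | h
    · exact ⟨[x], 0, by simp, by simp⟩
    · exact ⟨[], a, h, by simp⟩
  | zero => exact ⟨[], 0, by simp, by simp⟩
  | add a b _ _ iha ihb =>
    obtain ⟨l, k, hk, rfl⟩ := iha
    obtain ⟨m, j, hj, rfl⟩ := ihb
    refine ⟨l ++ m, k + j, ?_, ?_⟩
    · rw [star_add, hk, hj, neg_add]
    · rw [List.map_append, List.sum_append]
      abel
  | smul c a _ ih =>
    obtain ⟨l, k, hk, rfl⟩ := ih
    rcases le_total 0 c with hc | hc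
    · refine ⟨l.map fun p => (p.1, (Real.sqrt c) • p.2), c • k, ?_, ?_⟩
      · rw [star_smul, star_trivial, hk, smul_neg]
      · rw [smul_add, Hg_smul β c hc]
    · refine ⟨(l.map fun p => (p.1⁻¹, β p.1⁻¹ (star p.2))).map
        fun p => (p.1, (Real.sqrt (-c)) • p.2), c • k, ?_, ?_⟩
      · rw [star_smul, star_trivial, hk, smul_neg]
      · rw [smul_add, ← Hg_smul β (-c) (neg_nonneg.2 hc), ← Hg_neg, smul_neg, neg_smul, neg_neg]

end

private theorem Hg_scale {A : Type*} [CStarAlgebra A] [PartialOrder A] [StarOrderedRing A]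
    {c : A} (hc : IsSelfAdjoint c) (h : ‖c - 1‖ < 1) :
    ∃ r : ℝ, 0 ≤ r ∧ 1 ≤ r • c := by
  have h1 : IsSelfAdjoint (c - 1) := hc.sub (IsSelfAdjoint.one A)
  have h2 := h1.neg_algebraMap_norm_le_self
  have h3 : algebraMap ℝ A (1 - ‖c - 1‖) ≤ c := by
    rw [map_sub, map_one]
    have h4 := add_le_add_left h2 1
    calc (1 : A) - algebraMap ℝ A ‖c - 1‖ = -(algebraMap ℝ A ‖c - 1‖) + 1 := by abel
      _ ≤ (c - 1) + 1 := by exact h4
      _ = c := by abel
  have hd : 0 < 1 - ‖c - 1‖ := by linarith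
  refine ⟨(1 - ‖c - 1‖)⁻¹, (inv_pos.2 hd).le, ?_⟩
  have h5 := smul_le_smul_of_nonneg_left h3 (inv_pos.2 hd).le
  rw [Algebra.algebraMap_eq_smul_one, smul_smul, inv_mul_cancel₀ hd.ne', one_smul] at h5
  exact h5

private theorem Hg_fin {A : Type*} [CStarAlgebra A] [PartialOrder A] [StarOrderedRing A]
    {G : Type*} [Group G] (β : G →* (A ≃⋆ₐ[ℂ] A)) {l : List (G × A)}
    (h : 1 ≤ (l.map (Hg_c β)).sum) :
    ∃ (m : ℕ) (g : Fin m → G) (y : Fin m → A),
      1 ≤ ∑ i, (β (g i)⁻¹ (star (y i) * y i) - y i * star (y i)) := by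
  refine ⟨l.length, fun i => (l.get i).1, fun i => (l.get i).2, ?_⟩
  have h1 : ∑ i : Fin l.length, (β (l.get i).1⁻¹ (star (l.get i).2 * (l.get i).2) -
      (l.get i).2 * star (l.get i).2) = (l.map (Hg_c β)).sum := by
    rw [← List.sum_ofFn]
    congr 1
    conv_rhs => rw [← List.ofFn_get l, List.map_ofFn]
    rfl
  rw [h1]
  exact h

theorem hg (B : Type*) [CStarAlgebra B] [PartialOrder B] [StarOrderedRing B]
    {Γ : Type*} [Group Γ] (β : Γ →* (B ≃⋆ₐ[ℂ] B)) :
    (∃ f : B →L[ℝ] ℝ, 0 < f 1 ∧ (∀ x, 0 ≤ f (star x * x)) ∧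
      (∀ x, f (star x * x) = f (x * star x)) ∧
      ∀ g x, f (star (β g x) * β g x) = f (star x * x)) ∨
    ∃ (m : ℕ) (g : Fin m → Γ) (y : Fin m → B),
      1 ≤ ∑ i, (β (g i)⁻¹ (star (y i) * y i) - y i * star (y i)) := by
  by_cases hne : ∃ s ∈ Hg_S β, s ∈ Metric.ball (1 : B) 1
  · right
    obtain ⟨s, hs, hb⟩ := hne
    obtain ⟨l, k, hk, rfl⟩ := Hg_form β hs
    have hsa := Hg_list_sa β l
    have hn : ‖(l.map (Hg_c β)).sum - 1‖ < 1 := by
      have h1 : ‖(l.map (Hg_c β)).sum + k - 1‖ < 1 := by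
        rwa [Metric.mem_ball, dist_eq_norm] at hb
      have h2 : ‖(l.map (Hg_c β)).sum - k - 1‖ < 1 := by
        have h3 : star ((l.map (Hg_c β)).sum + k - 1) = (l.map (Hg_c β)).sum - k - 1 := by
          rw [star_sub, star_add, hsa.star_eq, hk, star_one]
          abel
        rw [← h3, norm_star]
        exact h1
      have h4 : (l.map (Hg_c β)).sum - 1 = (1 / 2 : ℝ) • ((l.map (Hg_c β)).sum + k - 1) +
          (1 / 2 : ℝ) • ((l.map (Hg_c β)).sum - k - 1) := by
        module
      rw [h4]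
      refine (norm_add_le _ _).trans_lt ?_
      rw [norm_smul, norm_smul]
      norm_num
      linarith
    obtain ⟨r, hr, h1⟩ := Hg_scale hsa hn
    rw [Hg_smul β r hr] at h1
    exact Hg_fin β h1
  · left
    have hdisj : Disjoint (Metric.ball (1 : B) 1) (Hg_S β : Set B) := by
      rw [Set.disjoint_left]
      intro a ha hs
      exact hne ⟨a, hs, ha⟩
    obtain ⟨f, u, hf, hu⟩ := geometric_hahn_banach_open (convex_ball (1 : B) 1)
      Metric.isOpen_ball (Hg_S β).convex hdisj
    have hu0 : u ≤ 0 := by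
      have := hu 0 (Hg_S β).zero_mem
      rwa [map_zero] at this
    have hS : ∀ s ∈ Hg_S β, f s = 0 := by
      intro s hs
      by_contra h0
      have h1 := hu (((u - 1) / f s) • s) ((Hg_S β).smul_mem _ hs)
      rw [map_smul, smul_eq_mul, div_mul_cancel₀ _ h0] at h1
      linarith
    have hcl : ∀ a ∈ Metric.closedBall (1 : B) 1, f a ≤ 0 := by
      have h1 : closure (Metric.ball (1 : B) 1) ⊆ {a | f a ≤ 0} :=
        closure_minimal (fun a ha => (hf a ha).le.trans hu0)
          (isClosed_le f.continuous continuous_const)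
      rw [closure_ball _ one_ne_zero] at h1
      exact fun a ha => h1 ha
    have hc : ∀ p : Γ × B, f (β p.1⁻¹ (star p.2 * p.2)) = f (p.2 * star p.2) := by
      intro p
      have h1 := hS (Hg_c β p) (Submodule.subset_span (Or.inl ⟨p, rfl⟩))
      unfold Hg_c at h1
      rw [map_sub] at h1
      linarith
    have hpos : ∀ (g : Γ) (a : B), 0 ≤ a → f (β g a) = f a := by
      intro g a ha
      have h1 := hc (g⁻¹, CFC.sqrt a)
      have h2 : star (CFC.sqrt a) = CFC.sqrt a :=
        (IsSelfAdjoint.of_nonneg (CFC.sqrt_nonneg a)).star_eq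
      have h3 : CFC.sqrt a * CFC.sqrt a = a := CFC.sqrt_mul_sqrt_self a ha
      simp only [inv_inv] at h1
      rwa [h2, h3] at h1
    refine ⟨-f, ?_, ?_, ?_, ?_⟩
    · have h1 := hf 1 (Metric.mem_ball_self one_pos)
      rw [neg_apply]
      linarith
    · intro x
      rw [neg_apply, neg_nonneg]
      have h0 : 0 ≤ star x * x := star_mul_self_nonneg x
      have hr : 0 < ‖star x * x‖ + 1 := by positivity
      have h1 : 0 ≤ (‖star x * x‖ + 1)⁻¹ • (star x * x) := smul_nonneg (inv_pos.2 hr).le h0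
      have h2 : ‖(‖star x * x‖ + 1)⁻¹ • (star x * x)‖ ≤ 1 := by
        rw [norm_smul, norm_inv, Real.norm_of_nonneg hr.le, inv_mul_le_iff₀ hr]
        linarith
      have h3 : (‖star x * x‖ + 1)⁻¹ • (star x * x) ≤ 1 :=
        (CStarAlgebra.norm_le_one_iff_of_nonneg _ h1).1 h2
      have h4 : ‖1 - (‖star x * x‖ + 1)⁻¹ • (star x * x)‖ ≤ 1 := by
        rw [CStarAlgebra.norm_le_one_iff_of_nonneg _ (sub_nonneg.2 h3)]
        exact sub_le_self _ h1
      have h5 := hcl ((‖star x * x‖ + 1)⁻¹ • (star x * x)) (by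
        rw [Metric.mem_closedBall, dist_comm, dist_eq_norm]
        exact h4)
      rw [map_smul, smul_eq_mul] at h5
      by_contra h6
      push Not at h6
      have := mul_pos (inv_pos.2 hr) h6
      linarith
    · intro x
      have h1 := hc (1, x)
      simp only [inv_one, map_one, StarAlgEquiv.one_apply] at h1
      rw [neg_apply, neg_apply, h1]
    · intro g x
      rw [neg_apply, neg_apply, ← map_star, ← map_mul, hpos g _ (star_mul_self_nonneg x)]

end Pool.Agent.H.MP_8be301_an.KT
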