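import Pool.Agent.H.MP_8be301_an.KT.Mu

/-!
# The projections of the diagonal are infinite  (module KT/Inf)

`infE`: let `e ≠ 0`, `q`, `c` from `hS`, `cW 1 ≤_M K • cW q`, `m = c * n * (c * K) + 1`, `s` for this `m`, `μ` from `leM_mu`, `z = m • cW (i q * s)`. Then
`2 • z = μ ((2 * m) • cW q) ≤ μ ((2 * m) • cW 1) ≤_M c • μ (n • cW 1) ≤_M (c * n * (c * K)) • cW (i q * s) ≤ z` and `z ≤_M cW e`: there is `z' ≤ cW e`, `z' ~ z`,
`z'` the class of a projection `e' ≤ e`, `2 • z' ≤_M z'`, so `e'` is infinite (`inf_of_leM`) and so is `e`.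
-/

set_option autoImplicit false

namespace Pool.Agent.H.MP_8be301_an.KT

open Pool.Agent.H.MP_8be301_an.CX Pool.Agent.H.MP_8be301_an.DP Pool.Agent.H.MP_8be301_an.RD

private theorem Inf_ext {A : Type*} [CStarAlgebra A] {P Q w : A} (hP : Pj P) (hQ : Pj Q)
    (hQP : Q * P = P) (h1 : star w * w = P) (h2 : P * w = w) (h3 : w * star w ≠ P) :
    ∃ v : A, star v * v = Q ∧ Q * v = v ∧ v * star v ≠ Q := by
  have hPQ : P * Q = P := by
    have h := congrArg star hQP
    rwa [star_mul, hP.2, hQ.2] at h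
  have hwP : w * P = w := by
    have h4 : star (w - w * P) * (w - w * P) = 0 := by
      rw [star_sub, star_mul, hP.2, sub_mul, mul_sub, mul_sub]
      have e1 : star w * (w * P) = P := by rw [← mul_assoc, h1, hP.1]
      have e2 : P * star w * w = P := by rw [mul_assoc, h1, hP.1]
      have e3 : P * star w * (w * P) = P := by rw [mul_assoc, e1, hP.1]
      rw [h1, e1, e2, e3]
      abel
    have h5 := (CStarRing.star_mul_self_eq_zero_iff (w - w * P)).1 h4
    exact (sub_eq_zero.1 h5).symm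
  obtain ⟨R, hR⟩ : ∃ R, R = Q - P := ⟨_, rfl⟩
  have hRs : star R = R := by rw [hR, star_sub, hP.2, hQ.2]
  have hRP : R * P = 0 := by rw [hR, sub_mul, hQP, hP.1, sub_self]
  have hPR : P * R = 0 := by rw [hR, mul_sub, hPQ, hP.1, sub_self]
  have hRR : R * R = R := by
    have : R * R = R * Q - R * P := by
      rw [← mul_sub, ← hR]
    rw [this, hRP, sub_zero, hR, sub_mul, hQ.1, hPQ]
  have hRw : R * w = 0 := by rw [← h2, ← mul_assoc, hRP, zero_mul]
  have hwR : w * R = 0 := by rw [← hwP, mul_assoc, hPR, mul_zero]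
  have hRw' : star w * R = 0 := by
    have h := congrArg star hRw
    rwa [star_mul, hRs, star_zero] at h
  have hwR' : R * star w = 0 := by
    have h := congrArg star hwR
    rwa [star_mul, hRs, star_zero] at h
  have hQw : Q * w = w := by rw [← h2, ← mul_assoc, hQP]
  have hQR : Q * R = R := by rw [hR, mul_sub, hQ.1, hQP]
  have hPRQ : P + R = Q := by
    rw [hR]
    abel
  refine ⟨w + R, ?_, ?_, ?_⟩
  · rw [star_add, hRs, add_mul, mul_add, mul_add, h1, hRw', hRw, hRR, add_zero, zero_add, hPRQ]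
  · rw [mul_add, hQw, hQR]
  · intro h
    apply h3
    rw [star_add, hRs, add_mul, mul_add, mul_add, hwR, hwR', hRR, add_zero, zero_add, ← hPRQ] at h
    exact add_right_cancel h

theorem infE {Γ B D A : Type*} [Group Γ] [CStarAlgebra B] [CStarAlgebra D] [CStarAlgebra A]
    (X : Cp Γ D A) (h0 : RR0 D) (β : Γ →* (B ≃⋆ₐ[ℂ] B))
    (hG : ∀ (q : B) (hq : Pj q), q ≠ 0 → ∃ k : ℕ, LeM (rho β) (cW (1 : B) pj_one) (k • cW q hq))
    (i : B →⋆ₐ[ℂ] D)
    (hi : ∀ g b, i (β g b) = X.α g (i b)) (hS : Sml β X.α i) {n : ℕ}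
    (hn : ∀ K : ℕ, LeM (rho β) (K • cW (1 : B) pj_one) (n • cW (1 : B) pj_one))
    {e : D} (he : Pj e) (he0 : e ≠ 0) :
    ∃ v : A, star v * v = X.ι e ∧ X.ι e * v = v ∧ v * star v ≠ X.ι e := by
  have hR : Refi (W D) := refi_W h0
  obtain ⟨q, c, hq, hq2⟩ := hS e he he0
  have hq0 : q ≠ 0 := by
    rintro rfl
    obtain ⟨s, _, -, hne, -⟩ := hq2 0
    exact hne (by rw [map_zero, zero_mul])
  obtain ⟨K, hK⟩ := hG q hq hq0
  obtain ⟨m, hm⟩ : ∃ m, m = c * n * (c * K) + 1 := ⟨_, rfl⟩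
  obtain ⟨s, hqs, hM, hne, hle⟩ := hq2 m
  obtain ⟨μ, hμ, hμ2⟩ := leM_mu h0 β X.α i hi hM
  -- `q ≤ 1`
  have h2 : Le (cW q hq) (cW (1 : B) pj_one) := by
    have hq' : Pj (1 - q) := ⟨by rw [mul_sub, sub_mul, sub_mul, hq.1]; simp,
      by rw [star_sub, star_one, hq.2]⟩
    refine ⟨cW (1 - q) hq', Subtype.ext ?_⟩
    change c1 q + c1 (1 - q) = c1 (1 : B)
    rw [← c1_add hq hq' (by rw [mul_sub, hq.1, mul_one, sub_self]), add_sub_cancel]
  have hz : LeM (rho X.α) (2 • (m • cW (i q * s) hqs)) (m • cW (i q * s) hqs) := by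
    have e1 : 2 • (m • cW (i q * s) hqs) = μ ((2 * m) • cW q hq) := by
      rw [map_nsmul, hμ, ← mul_nsmul']
    have e3 : LeM (rho X.α) (μ (cW (1 : B) pj_one)) ((c * K) • cW (i q * s) hqs) := by
      have h := hμ2 _ _ hK
      rwa [map_nsmul, hμ q hq, ← mul_nsmul'] at h
    have e4 : LeM (rho X.α) (c • μ (n • cW (1 : B) pj_one))
        ((c * n * (c * K)) • cW (i q * s) hqs) := by
      have h := LeM.nsmul (c * n) e3
      rw [← mul_nsmul'] at h
      rw [map_nsmul, ← mul_nsmul']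
      exact h
    rw [e1]
    refine LeM.trans hR (LeM.of_le (Gr_map μ (Gr_nsmul (2 * m) h2))) ?_
    refine LeM.trans hR (hμ2 _ _ (hn (2 * m))) ?_
    refine LeM.trans hR e4 (LeM.of_le (Gr_smul (by omega) _))
  obtain ⟨z, hz'⟩ : ∃ z : W D, z = m • cW (i q * s) hqs := ⟨_, rfl⟩
  rw [← hz'] at hz hle
  have hz0 : (z : VA D) ≠ 0 := by
    intro h
    rw [hz', hm, succ_nsmul] at h
    have h5 : (((c * n * (c * K)) • cW (i q * s) hqs : W D) : VA D) + c1 (i q * s) = 0 := h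
    exact hne (WdD_eq0 hqs (VA_conical h5).2)
  obtain ⟨k, u, g, hu, x, hx⟩ := hle
  obtain ⟨z', hz''⟩ : ∃ z' : W D, z' = ∑ j, rho X.α (g j) (u j) := ⟨_, rfl⟩
  rw [← hz''] at hx
  have hzz : LeM (rho X.α) z z' := ⟨k, u, g, hu, by rw [← hz'']; exact Le.refl _⟩
  have hzz' : LeM (rho X.α) z' z := by
    rw [hz'', hu]
    exact LeM.sum _ fun j _ => LeM.act _ _
  have h3 : LeM (rho X.α) (2 • z') z' :=
    LeM.trans hR (LeM.nsmul 2 hzz') (LeM.trans hR hz hzz)
  have hxv : (z' : VA D) + (x : VA D) = c1 e := congrArg Subtype.val hx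
  obtain ⟨e', he', hee, hc⟩ := WdD_sub he hxv
  have h4 : cW e' he' = z' := Subtype.ext hc.symm
  have he'0 : e' ≠ 0 := by
    rintro rfl
    have h5 : (z' : VA D) = 0 := by rw [hc, WdD_zero]
    have h6 : ∀ j, rho X.α (g j) (u j) = 0 := by
      intro j
      have h7 : ((rho X.α (g j) (u j) : W D) : VA D) +
          ((∑ l ∈ Finset.univ.erase j, rho X.α (g l) (u l) : W D) : VA D) = 0 := by
        rw [← AddSubmonoid.coe_add, Finset.add_sum_erase _ (fun l => rho X.α (g l) (u l))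
          (Finset.mem_univ j), ← hz'']
        exact h5
      exact Subtype.ext (VA_conical h7).1
    have h8 : ∀ j, u j = 0 := by
      intro j
      have h9 := congrArg (rho X.α (g j)⁻¹) (h6 j)
      rwa [← (rho X.α).mul, inv_mul_cancel, (rho X.α).one, map_zero] at h9
    apply hz0
    rw [hu, Finset.sum_eq_zero fun j _ => h8 j]
    rfl
  rw [← h4] at h3
  obtain ⟨w, hw1, hw2, hw3⟩ := inf_of_leM X he' he'0 h3
  refine Inf_ext (pj_map X.ι he') (pj_map X.ι he) ?_ hw1 hw2 hw3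
  rw [← map_mul, hee]

end Pool.Agent.H.MP_8be301_an.KT
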