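import Pool.Agent.H.MP_8be301_an.KT.Defs

/-!
# Multiplication by a commuting projection on the classes of projections  (module KT/Mu)

For a projection `s` as in `Mov` the map `b ↦ i b * s` induces an additive map `μ` from the classes of `B` to those of `D` (`exists_pushN`, as
`exists_push` in CX/Act). `rho α g (μ x) ≤_M c • μ (rho β g x)`: on generators `α g (i q * s) = i (β g q) * α g s`, which is dominated by the
projections `i (β g q) * α (h j) s = α (h j) (i (β g q) * s)` (`Mu_col`, `le_of_col`).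
-/

set_option autoImplicit false

namespace Pool.Agent.H.MP_8be301_an.KT

open Pool.Agent.H.MP_8be301_an.CX Pool.Agent.H.MP_8be301_an.DP Pool.Agent.H.MP_8be301_an.RD

section push

variable {B D : Type*} [CStarAlgebra B] [CStarAlgebra D]

theorem Mu_pj (f : B →⋆ₙₐ[ℂ] D) {q : B} (hq : Pj q) : Pj (f q) :=
  ⟨by rw [← map_mul, hq.1], by rw [← map_star, hq.2]⟩

private theorem Mu_conj (f : B →⋆ₙₐ[ℂ] D) {ι κ : Type*} (M : Matrix ι κ B) :
    (M.conjTranspose).map f = (M.map f).conjTranspose :=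
  Matrix.conjTranspose_map (f := f) (fun x => map_star f x)

private theorem Mu_mul (f : B →⋆ₙₐ[ℂ] D) {ι κ μ : Type*} [Fintype κ] (M : Matrix ι κ B)
    (N : Matrix κ μ B) : (M * N).map f = M.map f * N.map f := by
  ext i j
  simp [Matrix.mul_apply, Matrix.map_apply]

private theorem Mu_isP (f : B →⋆ₙₐ[ℂ] D) {ι : Type*} [Fintype ι] {P : Matrix ι ι B} (h : IsP P) :
    IsP (P.map f) :=
  ⟨by rw [← Mu_mul, h.1], by rw [← Mu_conj, h.2]⟩

private theorem Mu_meq (f : B →⋆ₙₐ[ℂ] D) {ι κ : Type*} [Fintype ι] [Fintype κ] {P : Matrix ι ι B}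
    {Q : Matrix κ κ B} (h : MEq P Q) : MEq (P.map f) (Q.map f) := by
  obtain ⟨v, h1, h2⟩ := h
  exact ⟨v.map f, by rw [← Mu_conj, ← Mu_mul, h1], by rw [← Mu_conj, ← Mu_mul, h2]⟩

/-- the map on classes -/
private noncomputable def Mu_F (f : B →⋆ₙₐ[ℂ] D) : VA B → VA D :=
  Quotient.lift (fun x : PM B => cl (x.P.map f) (Mu_isP f x.h))
    (fun _ _ h => (cl_eq _ _).2 (Mu_meq f h))

private theorem Mu_cl (f : B →⋆ₙₐ[ℂ] D) {ι : Type*} [Fintype ι] {P : Matrix ι ι B} (h : IsP P) :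
    Mu_F f (cl P h) = cl (P.map f) (Mu_isP f h) := by
  have h1 : Mu_F f (cl P h) = cl ((P.submatrix (Fintype.equivFin ι).symm
      (Fintype.equivFin ι).symm).map f) (Mu_isP f (h.sub _)) := rfl
  rw [h1]
  exact ((cl_eq _ _).2 (MEq.sub (Mu_isP f h) (Fintype.equivFin ι).symm)).symm

theorem exists_pushN (f : B →⋆ₙₐ[ℂ] D) : ∃ F : VA B →+ VA D, ∀ q : B, Pj q →
    F (c1 q) = c1 (f q) := by
  refine ⟨⟨⟨Mu_F f, ?_⟩, ?_⟩, ?_⟩
  · have h0 : (0 : VA B) = cl (0 : Matrix Empty Empty B) (IsP_zero _) := (cl_zero Empty).symm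
    rw [h0, Mu_cl, ← cl_zero Empty]
    exact Ref1_cong _ _ (by ext i; exact i.elim)
  · intro x y
    obtain ⟨n, P, hP, rfl⟩ := cl_surj x
    obtain ⟨m, Q, hQ, rfl⟩ := cl_surj y
    show Mu_F f (cl P hP + cl Q hQ) = Mu_F f (cl P hP) + Mu_F f (cl Q hQ)
    rw [cl_add, Mu_cl, Mu_cl, Mu_cl, cl_add]
    refine Ref1_cong _ _ ?_
    rw [Matrix.fromBlocks_map, Matrix.map_zero f (map_zero f), Matrix.map_zero f (map_zero f)]
  · intro q hq
    show Mu_F f (c1 q) = c1 (f q)
    rw [c1_eq hq, Mu_cl, c1_eq (Mu_pj f hq)]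
    exact Ref1_cong _ _ (by ext i j; rfl)

/-- multiplication by a projection that commutes with the image -/
private def Mu_f (i : B →⋆ₐ[ℂ] D) {s : D} (hs : Pj s) (hc : ∀ b, i b * s = s * i b) :
    B →⋆ₙₐ[ℂ] D where
  toFun b := i b * s
  map_smul' c b := by
    show i (c • b) * s = c • (i b * s)
    rw [map_smul, smul_mul_assoc]
  map_zero' := by
    show i 0 * s = 0
    rw [map_zero, zero_mul]
  map_add' x y := by
    show i (x + y) * s = i x * s + i y * s
    rw [map_add, add_mul]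
  map_mul' x y := by
    show i (x * y) * s = i x * s * (i y * s)
    rw [map_mul, mul_assoc (i x) s, ← mul_assoc s (i y) s, ← hc y, mul_assoc (i y) s s, hs.1,
      mul_assoc]
  map_star' x := by
    show i (star x) * s = star (i x * s)
    rw [star_mul, hs.2, ← map_star, hc]

private theorem Mu_comm_star (i : B →⋆ₐ[ℂ] D) {v : D} (hv : ∀ b, i b * v = v * i b) (b : B) :
    i b * star v = star v * i b := by
  have h1 := congrArg star (hv (star b))
  rw [star_mul, star_mul, ← map_star, star_star] at h1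
  exact h1.symm

/-- domination by translates, multiplied by a projection of `B` -/
private theorem Mu_col (i : B →⋆ₐ[ℂ] D) {c : ℕ} {t : D} {r w : Fin c → D}
    (hr : ∀ j, Pj (r j)) (hrc : ∀ j b, i b * r j = r j * i b) (hw : ∀ j b, i b * w j = w j * i b)
    (h1 : ∀ j, r j * w j = w j) (h2 : ∑ j, star (w j) * w j = t) {q : B} (hq : Pj q)
    (hqt : Pj (i q * t)) : Le (c1 (i q * t)) (∑ j, c1 (i q * r j)) := by
  have hqq : i q * i q = i q := by rw [← map_mul, hq.1]
  have hqs : star (i q) = i q := by rw [← map_star, hq.2]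
  refine le_of_col hqt (fun j => Defs_pj (hr j) hq (hrc j q)) (z := fun j => i q * w j) ?_ ?_
  · intro j
    show i q * r j * (i q * w j) = i q * w j
    rw [mul_assoc, ← mul_assoc (r j), ← hrc, mul_assoc (i q) (r j), h1, ← mul_assoc, hqq]
  · rw [← h2, Finset.mul_sum]
    refine Finset.sum_congr rfl fun j _ => ?_
    rw [star_mul, hqs, mul_assoc, ← mul_assoc (i q) (i q), hqq, ← mul_assoc,
      ← Mu_comm_star i (hw j) q, mul_assoc]

end push

theorem leM_mu {Γ B D : Type*} [Group Γ] [CStarAlgebra B] [CStarAlgebra D] (h0 : RR0 D)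
    (β : Γ →* (B ≃⋆ₐ[ℂ] B)) (α : Γ →* (D ≃⋆ₐ[ℂ] D)) (i : B →⋆ₐ[ℂ] D)
    (hi : ∀ g b, i (β g b) = α g (i b)) {c : ℕ} {s : D} (hs : Mov β α i c s) :
    ∃ μ : W B →+ W D, (∀ (q : B) (hq : Pj q), μ (cW q hq) = cW (i q * s) (hs.pj_mul hq)) ∧
      ∀ x y, LeM (rho β) x y → LeM (rho α) (μ x) (c • μ y) := by
  have hR : Refi (W D) := refi_W h0
  obtain ⟨F, hF⟩ := exists_pushN (Mu_f i hs.1 hs.2.1)
  have hF' : ∀ q : B, Pj q → F (c1 q) = c1 (i q * s) := hF
  have hW : ∀ x : W B, F (x : VA B) ∈ W D := by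
    rintro ⟨x, hx⟩
    obtain ⟨k, p, hp, rfl⟩ := W_fin hx
    show F (∑ j, c1 (p j)) ∈ W D
    rw [map_sum]
    refine AddSubmonoid.sum_mem _ fun j _ => ?_
    rw [hF' _ (hp j)]
    exact c1_mem (hs.pj_mul (hp j))
  obtain ⟨μ, hμ⟩ : ∃ μ : W B →+ W D, ∀ x : W B, (μ x : VA D) = F (x : VA B) :=
    ⟨(F.comp (W B).subtype).codRestrict (W D) hW, fun _ => rfl⟩
  have hc : ∀ (q : B) (hq : Pj q), μ (cW q hq) = cW (i q * s) (hs.pj_mul hq) := by
    intro q hq
    refine Subtype.ext ?_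
    rw [hμ]
    exact hF' q hq
  have hgen : ∀ (g : Γ) (q : B) (hq : Pj q),
      LeM (rho α) (rho α g (μ (cW q hq))) (c • μ (rho β g (cW q hq))) := by
    intro g p hp
    obtain ⟨h, w, hh, hw, h1, h2⟩ := hs.2.2 g
    have hq : Pj (β g p) := pj_aut _ hp
    have h3 : α g (i p * s) = i (β g p) * α g s := by rw [map_mul, hi]
    have h4 : Pj (i (β g p) * α g s) := by
      rw [← h3]
      exact pj_aut _ (hs.pj_mul hp)
    have hrs : ∀ j, Pj (α (h j) s) := fun j => pj_aut _ hs.1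
    have hrc : ∀ j b, i b * α (h j) s = α (h j) s * i b := by
      intro j b
      have h5 := congrArg (α (h j)) (hs.2.1 b)
      rw [map_mul, map_mul, ← hi, hh] at h5
      exact h5
    have h6 := Mu_col i hrs hrc hw h1 h2 hq h4
    have h7 : ∀ j, Pj (i (β g p) * α (h j) s) := fun j => Defs_pj (hrs j) hq (hrc j _)
    have h8 : Le (cW (i (β g p) * α g s) h4) (∑ j, cW (i (β g p) * α (h j) s) (h7 j)) := by
      refine Reg_W h0 ?_
      rw [AddSubmonoid.coe_finsetSum]
      exact h6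
    have h9 : rho α g (μ (cW p hp)) = cW (i (β g p) * α g s) h4 := by
      rw [hc, rho_c]
      exact Subtype.ext (congrArg c1 h3)
    rw [h9, rho_c, hc]
    refine LeM.trans hR (LeM.of_le h8) ?_
    have h10 : LeM (rho α) (∑ j, cW (i (β g p) * α (h j) s) (h7 j))
        (∑ _j : Fin c, cW (i (β g p) * s) (hs.pj_mul hq)) := by
      refine LeM.sum _ fun j _ => ?_
      have h11 : cW (i (β g p) * α (h j) s) (h7 j) =
          rho α (h j) (cW (i (β g p) * s) (hs.pj_mul hq)) := by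
        rw [rho_c]
        refine Subtype.ext (congrArg c1 ?_)
        rw [map_mul, ← hi, hh]
      rw [h11]
      exact LeM.act _ _
    rw [Finset.sum_const, Finset.card_univ, Fintype.card_fin] at h10
    exact h10
  have hinv : ∀ (g : Γ) (x : W B), LeM (rho α) (rho α g (μ x)) (c • μ (rho β g x)) := by
    rintro g ⟨x, hx⟩
    obtain ⟨k, p, hp, hxp⟩ := W_fin hx
    have e : (⟨x, hx⟩ : W B) = ∑ j, cW (p j) (hp j) := by
      refine Subtype.ext ?_
      rw [AddSubmonoid.coe_finsetSum]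
      exact hxp
    rw [e, map_sum, map_sum, map_sum, map_sum, Finset.smul_sum]
    exact LeM.sum _ fun j _ => hgen g (p j) (hp j)
  refine ⟨μ, hc, ?_⟩
  rintro x y ⟨n, z, g, hx, w, hw⟩
  have h1 : LeM (rho α) (μ x) (∑ j, c • μ (rho β (g j) (z j))) := by
    rw [hx, map_sum]
    exact LeM.sum _ fun j _ => LeM.trans hR (LeM.act' (g j) (μ (z j))) (hinv _ _)
  refine LeM.trans hR h1 (LeM.of_le ⟨c • μ w, ?_⟩)
  rw [← hw, map_add, map_sum, smul_add, Finset.smul_sum]

end Pool.Agent.H.MP_8be301_an.KT
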